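import Mathlib
import Pool.Agent.V1166.WI.Two
import Pool.Agent.Results.MP_5b0a7e_nt.ThinFamilyModuli

/-!
# The least prime in ALL the classes of small windows, for ALL the moduli of small windows

Let `v n` be a sequence with `log (v n) ≥ n ^ δ` for large `n`, for instance `v n = 2 ^ n`, `n!` or
`2 ^ 2 ^ n`. For almost every `α > 0` and almost every `β` the following holds, for all `b`, `m` and
all sufficiently large `A` (in terms of `b`, `m`, `δ`): if `n` is large, then for ALL the moduli `q`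
with `|q - α v n| ≤ (log v n) ^ b` and ALL the classes `l` prime to `q` with
`|l - β q| ≤ (log v n) ^ b` the least prime `p(l, q)` is at most `φ(q) (log q) ^ A`, and for
`y = φ(q) (log q) ^ A` one has `ψ(y; q, l) = (1 + O((log q) ^ (-m))) y / φ(q)`.
-/

set_option autoImplicit false

namespace Pool.Agent.Results.MP_e1dc24_nt.AllClassesInWindows

open MeasureTheory Filter Finset

open Pool.Agent.Results.MP_5b0a7e_nt.ThinFamilyModuli (late off psiAP Good energy exceptions first)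

/-- the exceptional classes: no prime `p ≤ φ(q) (log q) ^ A` lies in the class `l` modulo `q`, or
`ψ(φ(q) (log q) ^ A; q, l)` differs from `(log q) ^ A` by at least `(log q) ^ A / (log q) ^ m` -/
def Exc (A m q l : ℕ) : Prop :=
  Nat.Coprime l q ∧ ((∀ p : ℕ, p.Prime → (p : ℝ) ≤ Nat.totient q * Real.log q ^ A → ¬ p % q = l) ∨
    Real.log q ^ A / Real.log q ^ m ≤
      |psiAP (Nat.totient q * Real.log q ^ A) q l - Real.log q ^ A|)

lemma energy_one (N : ℕ) : energy 1 (fun i : Fin N => ((i : ℕ) : ℤ) + 1) ≤ N := by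
  unfold energy
  have h : Function.Injective (fun q : {q : (Fin 1 → Fin N) × (Fin 1 → Fin N) //
      ∑ j, (fun i : Fin N => ((i : ℕ) : ℤ) + 1) (q.1 j) =
        ∑ j, (fun i : Fin N => ((i : ℕ) : ℤ) + 1) (q.2 j)} => q.1.1 0) := by
    rintro ⟨⟨a, b⟩, h1⟩ ⟨⟨c, d⟩, h2⟩ h3
    simp only [univ_unique, Fin.default_eq_zero, sum_singleton, add_left_inj, Nat.cast_inj] at h1 h2 h3
    have h4 : a = c := funext fun j => by rw [Fin.fin_one_eq_zero j]; exact h3
    have h5 : b 0 = d 0 := by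
      apply Fin.ext
      rw [← h1, ← h2, h3]
    have h6 : b = d := funext fun j => by rw [Fin.fin_one_eq_zero j]; exact h5
    rw [Subtype.mk.injEq, h4, h6]
  calc Nat.card _ ≤ Nat.card (Fin N) := Nat.card_le_card_of_injective _ h
    _ = N := Nat.card_fin N

open Classical in
/-- the exceptional moduli up to `N` -/
lemma moduli (κ V : ℕ) (hV : V ≤ κ) :
    ∃ N₀ : ℕ, ∀ N : ℕ, N₀ ≤ N → ∀ F : Finset ℕ, (∀ q ∈ F, 1 ≤ q ∧ q ≤ N ∧ ¬ Good 1 κ q) →
      (F.card : ℝ) ≤ 2 * N / (Real.log N) ^ V := by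
  obtain ⟨N₀, hN₀⟩ := first 1 0 κ V 1 one_pos le_rfl
  refine ⟨N₀ + 3, fun N hN F hF => ?_⟩
  have hN3 : (3 : ℝ) ≤ N := by exact_mod_cast (by omega : 3 ≤ N)
  have hlog1 : 1 ≤ Real.log N := by
    rw [Real.le_log_iff_exp_le (by linarith)]
    linarith [Real.exp_one_lt_d9]
  have hlog : 0 < Real.log N := by linarith
  have h1 := hN₀ N (by omega) (Fin N) (fun i => ((i : ℕ) : ℤ) + 1) (fun i => by
    rw [abs_of_nonneg (by positivity)]
    have := i.2
    omega) (by
    rw [pow_zero, one_mul, Fintype.card_fin]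
    have h2 : (energy 1 (fun i : Fin N => ((i : ℕ) : ℤ) + 1) : ℝ) ≤ N := by
      exact_mod_cast energy_one N
    calc (energy 1 (fun i : Fin N => ((i : ℕ) : ℤ) + 1) : ℝ) * N ≤ N * N :=
          mul_le_mul_of_nonneg_right h2 (Nat.cast_nonneg _)
      _ = (N : ℝ) ^ (2 * 1) := by ring)
  rw [Fintype.card_fin] at h1
  have hsplit : F.card = (F.filter (fun q : ℕ => (q : ℝ) * Real.log N ^ κ < N)).card +
      (F.filter (fun q : ℕ => ¬ (q : ℝ) * Real.log N ^ κ < N)).card :=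
    (card_filter_add_card_filter_not _).symm
  have h2 : ((F.filter (fun q : ℕ => (q : ℝ) * Real.log N ^ κ < N)).card : ℝ) ≤ N / Real.log N ^ V := by
    have h3 : F.filter (fun q : ℕ => (q : ℝ) * Real.log N ^ κ < N) ⊆
        Icc 1 ⌊(N : ℝ) / Real.log N ^ V⌋₊ := by
      intro q hq
      obtain ⟨g1, g2⟩ := mem_filter.1 hq
      refine mem_Icc.2 ⟨(hF q g1).1, Nat.le_floor ?_⟩
      rw [le_div_iff₀ (by positivity)]
      refine le_trans (mul_le_mul_of_nonneg_left (pow_le_pow_right₀ hlog1 hV) (Nat.cast_nonneg q)) ?_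
      exact g2.le
    have h4 := card_le_card h3
    rw [Nat.card_Icc, Nat.add_sub_cancel] at h4
    exact (Nat.cast_le.2 h4).trans (Nat.floor_le (by positivity))
  have h5 : ((F.filter (fun q : ℕ => ¬ (q : ℝ) * Real.log N ^ κ < N)).card : ℝ) ≤
      N / Real.log N ^ V := by
    refine le_trans ?_ h1
    apply Nat.cast_le.2
    refine card_le_card_of_injOn (fun q => if h : q - 1 < N then (⟨q - 1, h⟩ : Fin N) else
      ⟨0, by omega⟩) ?_ ?_
    · intro q hq
      obtain ⟨g1, g2⟩ := mem_filter.1 (mem_coe.1 hq)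
      obtain ⟨g3, g4, g5⟩ := hF q g1
      have g6 : q - 1 < N := by omega
      have g7 : (((q - 1 : ℕ) : ℤ) + 1) = (q : ℤ) := by omega
      simp only [dif_pos g6]
      refine mem_coe.2 (mem_filter.2 ⟨mem_univ _, ?_, ?_, ?_⟩)
      · show (0 : ℤ) < ((q - 1 : ℕ) : ℤ) + 1
        omega
      · show (N : ℝ) ≤ ((((q - 1 : ℕ) : ℤ) + 1 : ℤ) : ℝ) * Real.log N ^ κ
        rw [g7]
        push_cast
        exact not_lt.1 g2
      · show ¬ Good 1 κ (((q - 1 : ℕ) : ℤ) + 1).toNat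
        rw [g7, Int.toNat_natCast]
        exact g5
    · intro q hq q' hq' hqq
      obtain ⟨g1, -⟩ := mem_filter.1 (mem_coe.1 hq)
      obtain ⟨g1', -⟩ := mem_filter.1 (mem_coe.1 hq')
      obtain ⟨g3, g4, -⟩ := hF q g1
      obtain ⟨g3', g4', -⟩ := hF q' g1'
      have g6 : q - 1 < N := by omega
      have g6' : q' - 1 < N := by omega
      simp only [dif_pos g6, dif_pos g6', Fin.mk.injEq] at hqq
      omega
  rw [hsplit]
  push_cast
  calc _ ≤ (N : ℝ) / Real.log N ^ V + N / Real.log N ^ V := add_le_add h2 h5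
    _ = _ := by ring

/-- the number of the integers of a window -/
lemma card_window (c r : ℝ) (hr : 1 ≤ r) (F : Finset ℕ) (hF : ∀ q ∈ F, |(q : ℝ) - c| ≤ r) :
    (F.card : ℝ) ≤ 3 * r := by
  have h1 : F.card ≤ (Icc ⌈c - r⌉ ⌊c + r⌋).card := by
    refine card_le_card_of_injOn (fun q => (q : ℤ)) ?_ ?_
    · intro q hq
      obtain ⟨g1, g2⟩ := abs_le.1 (hF q (mem_coe.1 hq))
      refine mem_coe.2 (mem_Icc.2 ⟨Int.ceil_le.2 ?_, Int.le_floor.2 ?_⟩)
      · push_cast
        linarith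
      · push_cast
        linarith
    · intro q _ q' _ h
      have h' : (q : ℤ) = (q' : ℤ) := h
      exact_mod_cast h'
  rw [Int.card_Icc] at h1
  have h2 : ((⌊c + r⌋ + 1 - ⌈c - r⌉).toNat : ℝ) ≤ 2 * r + 1 := by
    have h3 : (⌊c + r⌋ : ℝ) ≤ c + r := Int.floor_le _
    have h4 : c - r ≤ (⌈c - r⌉ : ℝ) := Int.le_ceil _
    rcases le_or_gt 0 (⌊c + r⌋ + 1 - ⌈c - r⌉) with h5 | h5
    · have h6 : (((⌊c + r⌋ + 1 - ⌈c - r⌉).toNat : ℤ) : ℝ) = ((⌊c + r⌋ + 1 - ⌈c - r⌉ : ℤ) : ℝ) := by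
        rw [Int.toNat_of_nonneg h5]
      rw [Int.cast_natCast] at h6
      rw [h6]
      push_cast
      linarith
    · rw [Int.toNat_of_nonpos h5.le]
      push_cast
      linarith
  have h3 : (F.card : ℝ) ≤ ((⌊c + r⌋ + 1 - ⌈c - r⌉).toNat : ℝ) := by exact_mod_cast h1
  linarith

/-- the exceptional classes of a modulus with the property `Good` -/
lemma classes {A m W q : ℕ} (hA : W + 2 * m + 3 ≤ A) (hlog : 2 ≤ Real.log q)
    (hq : Good 1 (A - 1) q) (F : Finset ℕ) (hF : ∀ l ∈ F, l < q ∧ Exc A m q l) :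
    (F.card : ℝ) ≤ q / (Real.log q) ^ W := by
  classical
  obtain ⟨c, rfl⟩ : ∃ c, A = c + 1 := ⟨A - 1, by omega⟩
  simp only [Nat.add_sub_cancel] at hq
  set L := Real.log q with hL
  have hL0 : 0 < L := by linarith
  have hlam : (1 : ℝ) ≤ L ^ c := one_le_pow₀ (by linarith)
  have hz : L ^ c * (Nat.totient q * L) = Nat.totient q * L ^ (c + 1) := by ring
  have hz2 : L ^ c * L = L ^ (c + 1) := by ring
  obtain ⟨h1, h2⟩ := hq (L ^ c) hlam le_rfl
  have h3 := h2 (1 / L ^ m) (by positivity)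
  rw [hz] at h1
  have hsub : F ⊆ (range q).filter (fun b => Nat.Coprime b q ∧ ∀ p : ℕ, p.Prime →
      (p : ℝ) ≤ Nat.totient q * L ^ (c + 1) → ¬ p % q = b) ∪
      (range q).filter (fun b => Nat.Coprime b q ∧ 1 / L ^ m * (L ^ c * Real.log q) ≤
        |psiAP (L ^ c * (Nat.totient q * Real.log q)) q b - L ^ c * Real.log q|) := by
    intro l hl
    obtain ⟨g1, g2, g3⟩ := hF l hl
    rcases g3 with g3 | g3
    · exact mem_union_left _ (mem_filter.2 ⟨mem_range.2 g1, g2, g3⟩)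
    · refine mem_union_right _ (mem_filter.2 ⟨mem_range.2 g1, g2, ?_⟩)
      rw [← hL, hz, hz2, one_div_mul_eq_div]
      exact g3
  have h4 : (F.card : ℝ) ≤ late q (Nat.totient q * L ^ (c + 1)) + off q (L ^ c) (1 / L ^ m) := by
    have h5 := (card_le_card hsub).trans (card_union_le _ _)
    have h6 : (F.card : ℝ) ≤ (((range q).filter (fun b => Nat.Coprime b q ∧ ∀ p : ℕ, p.Prime →
        (p : ℝ) ≤ Nat.totient q * L ^ (c + 1) → ¬ p % q = b)).card : ℝ) +
        (((range q).filter (fun b => Nat.Coprime b q ∧ 1 / L ^ m * (L ^ c * Real.log q) ≤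
        |psiAP (L ^ c * (Nat.totient q * Real.log q)) q b - L ^ c * Real.log q|)).card : ℝ) := by
      exact_mod_cast h5
    refine h6.trans (le_of_eq ?_)
    unfold late off
    congr 2
  have hφ : (Nat.totient q : ℝ) ≤ q := by exact_mod_cast Nat.totient_le q
  have hφ0 : (0 : ℝ) ≤ Nat.totient q := Nat.cast_nonneg _
  obtain ⟨d, hd⟩ : ∃ d, c = W + 2 * m + 2 + d := ⟨c - (W + 2 * m + 2), by omega⟩
  have hLm : (1 : ℝ) ≤ L ^ m := one_le_pow₀ (by linarith)
  have hLd : (1 : ℝ) ≤ L ^ d := one_le_pow₀ (by linarith)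
  have hc : L ^ c = L ^ W * (L ^ m) ^ 2 * L ^ 2 * L ^ d := by
    rw [hd]
    ring
  have h7 : (1 + 1) * (Nat.totient q : ℝ) / L ^ c + (1 + 1) * Nat.totient q / (L ^ c * (1 / L ^ m) ^ 2) ≤
      q / L ^ W := by
    have e1 : (1 + 1) * (Nat.totient q : ℝ) / (L ^ c * (1 / L ^ m) ^ 2) =
        2 * Nat.totient q / (L ^ W * L ^ 2 * L ^ d) := by
      rw [hc]
      field_simp
      ring
    have e2 : (1 + 1) * (Nat.totient q : ℝ) / L ^ c ≤ 2 * Nat.totient q / (L ^ W * L ^ 2 * L ^ d) := by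
      rw [hc, show (1 : ℝ) + 1 = 2 by norm_num]
      refine div_le_div_of_nonneg_left (by positivity) (by positivity) ?_
      have : (1 : ℝ) ≤ (L ^ m) ^ 2 := one_le_pow₀ hLm
      have h8 : 0 ≤ L ^ W * L ^ 2 * L ^ d := by positivity
      calc L ^ W * L ^ 2 * L ^ d = 1 * (L ^ W * L ^ 2 * L ^ d) := by ring
        _ ≤ (L ^ m) ^ 2 * (L ^ W * L ^ 2 * L ^ d) := mul_le_mul_of_nonneg_right this h8
        _ = _ := by ring
    rw [e1]
    calc _ ≤ 2 * (Nat.totient q : ℝ) / (L ^ W * L ^ 2 * L ^ d) +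
          2 * Nat.totient q / (L ^ W * L ^ 2 * L ^ d) := by linarith
      _ = (Nat.totient q / L ^ W) * (4 / (L ^ 2 * L ^ d)) := by
          field_simp
          ring
      _ ≤ (Nat.totient q / L ^ W) * 1 := by
          refine mul_le_mul_of_nonneg_left ?_ (by positivity)
          rw [div_le_one (by positivity)]
          nlinarith
      _ ≤ q / L ^ W := by
          rw [mul_one]
          exact div_le_div_of_nonneg_right hφ (by positivity)
  linarith

/-- **Theorem.** Let `δ > 0`, `k ≥ 2 / δ`, and let `v n > 0` be a sequence with `log (v n) ≥ n ^ δ` for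
large `n`. For almost all real `α`, if `α > 0`, and for almost all real `β`: for all `b`, `m` and
`A ≥ 2 b + k + 2 m + 3` and all large `n`, for ALL moduli `q` with `|q - α v n| ≤ (log v n) ^ b` and
ALL classes `l`, `0 ≤ l < q`, prime to `q` with `|l - β q| ≤ (log v n) ^ b`, some prime
`p ≤ φ(q) (log q) ^ A` is congruent to `l` modulo `q`, and
`|ψ(y; q, l) - y / φ(q)| < (y / φ(q)) / (log q) ^ m` for `y = φ(q) (log q) ^ A`. -/
theorem result (δ : ℝ) (hδ : 0 < δ) (k : ℕ) (hk : 2 ≤ δ * k) (v : ℕ → ℝ) (hv0 : ∀ n, 0 < v n)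
    (hv : ∀ᶠ n : ℕ in atTop, (n : ℝ) ^ δ ≤ Real.log (v n)) :
    ∀ᵐ α : ℝ, 0 < α → ∀ᵐ β : ℝ, ∀ b m A : ℕ, 2 * b + k + 2 * m + 3 ≤ A →
      ∀ᶠ n : ℕ in atTop, ∀ q l : ℕ, |(q : ℝ) - α * v n| ≤ (Real.log (v n)) ^ b → l < q →
        |(l : ℝ) - β * q| ≤ (Real.log (v n)) ^ b → Nat.Coprime l q →
          (∃ p : ℕ, p.Prime ∧ (p : ℝ) ≤ Nat.totient q * Real.log q ^ A ∧ p % q = l) ∧
          |psiAP (Nat.totient q * Real.log q ^ A) q l - Real.log q ^ A| <
            Real.log q ^ A / Real.log q ^ m := by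
  classical
  have hT := Pool.Agent.V1166.WI.ev_fast hδ hv
  -- the windows of moduli
  have s1 : ∀ b m A : ℕ, ∀ᵐ α : ℝ, 2 * b + k + 2 * m + 3 ≤ A → 0 < α → ∀ᶠ n : ℕ in atTop,
      ∀ q : ℕ, |(q : ℝ) - α * v n| ≤ (Real.log (v n)) ^ b →
        Good 1 (A - 1) q ∧ Real.log (v n) / 2 ≤ Real.log q := by
    intro b m A
    by_cases hA : 2 * b + k + 2 * m + 3 ≤ A
    · filter_upwards [Pool.Agent.V1166.WI.step_one (Good := Good 1 (A - 1)) (b := b) hδ hk
        (moduli (A - 1) (b + k) (by omega)) hv0 hv] with α hα _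
      exact hα
    · exact Eventually.of_forall fun α h => absurd h hA
  filter_upwards [ae_all_iff.2 fun b => ae_all_iff.2 fun m => ae_all_iff.2 fun A =>
    s1 b m A] with α hα hα0
  -- the windows of classes
  have s2 : ∀ b m A : ℕ, ∀ᵐ β : ℝ, 2 * b + k + 2 * m + 3 ≤ A → ∀ᶠ n : ℕ in atTop,
      ∀ q l : ℕ, |(q : ℝ) - α * v n| ≤ (Real.log (v n)) ^ b → l < q →
        |(l : ℝ) - β * q| ≤ (Real.log (v n)) ^ b → ¬ Exc A m q l := by
    intro b m A
    by_cases hA : 2 * b + k + 2 * m + 3 ≤ A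
    · have hW : ∀ᶠ n : ℕ in atTop,
          ((((Icc 0 ⌊α * v n + (Real.log (v n)) ^ b⌋₊).filter
            (fun q : ℕ => |(q : ℝ) - α * v n| ≤ (Real.log (v n)) ^ b)).card : ℕ) : ℝ) ≤
              3 * (Real.log (v n)) ^ b ∧
          ∀ q ∈ (Icc 0 ⌊α * v n + (Real.log (v n)) ^ b⌋₊).filter
            (fun q : ℕ => |(q : ℝ) - α * v n| ≤ (Real.log (v n)) ^ b),
            Real.log (v n) / 2 ≤ Real.log q ∧ ∀ F : Finset ℕ,
              (∀ l ∈ F, l < q ∧ Exc A m q l) → (F.card : ℝ) ≤ q / (Real.log q) ^ (2 * b + k) := by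
        filter_upwards [hα b m A hA hα0, hT.eventually_ge_atTop 4] with n hn hn1
        refine ⟨card_window _ _ (one_le_pow₀ (by linarith)) _ fun q hq => (mem_filter.1 hq).2,
          fun q hq => ?_⟩
        obtain ⟨g1, g2⟩ := hn q (mem_filter.1 hq).2
        exact ⟨g2, fun F hF => classes (by omega) (by linarith) g1 F hF⟩
      filter_upwards [Pool.Agent.V1166.WI.step_two (b := b) hδ hk hv hW] with β hβ _
      filter_upwards [hβ, hT.eventually_ge_atTop 1] with n hn hn1 q l hq hl hlq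
      refine hn q (mem_filter.2 ⟨mem_Icc.2 ⟨Nat.zero_le _, Nat.le_floor ?_⟩, hq⟩) l hl hlq
      linarith [(abs_le.1 hq).2]
    · exact Eventually.of_forall fun α h => absurd h hA
  filter_upwards [ae_all_iff.2 fun b => ae_all_iff.2 fun m => ae_all_iff.2 fun A =>
    s2 b m A] with β hβ b m A hA
  filter_upwards [hβ b m A hA] with n hn q l hq hl hlq hcop
  have h := hn q l hq hl hlq
  refine ⟨?_, ?_⟩
  · by_contra hcon
    refine h ⟨hcop, Or.inl fun p hp hpy hpl => hcon ⟨p, hp, hpy, hpl⟩⟩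
  · by_contra hcon
    exact h ⟨hcop, Or.inr (not_lt.1 hcon)⟩

end Pool.Agent.Results.MP_e1dc24_nt.AllClassesInWindows
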