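import Mathlib
import Pool.Agent.V1137.SI3

/-!
Primes `c + m t` for `t` in an ARBITRARY dense subset `T` of an interval of multipliers, of minimal
length `≍ log m`: the right number for a positive proportion of the residues `c` in every interval of
length `≥ m ^ (1 - η)`; simultaneously for several progressions.
-/

set_option autoImplicit false

open Finset Real

namespace Pool.Agent.Results.MP_e1dc24_nt.DenseMultipliers

/-- the number of `t ∈ T` for which all `c_i + m_i t` are prime -/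
def count {k : ℕ} (m c : Fin k → ℕ) (T : Finset ℕ) : ℕ := (T.filter (fun t : ℕ => ∀ i, (c i + m i * t).Prime)).card

/-- the vectors `c`, `B_i < c_i ≤ B_i + H_i`, for which the number of `t ∈ T` with all `c_i + m_i t`
prime lies between `κ |T| / ∏ log m_i` and `κ⁻¹ |T| / ∏ log m_i` -/
noncomputable def good {k : ℕ} (κ : ℝ) (m B H : Fin k → ℕ) (T : Finset ℕ) : Finset (Fin k → ℕ) :=
  (Fintype.piFinset (fun i => Ioc (B i) (B i + H i))).filter (fun c =>
    κ * T.card / ∏ i, log (m i) ≤ count m c T ∧ κ * count m c T ≤ T.card / ∏ i, log (m i))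

theorem result : ∃ η : ℝ, 0 < η ∧ η < 1 ∧ ∀ k : ℕ, 1 ≤ k → ∀ γ ρ : ℝ, 0 < γ → 0 < ρ →
    ∃ κ : ℝ, 0 < κ ∧ ∃ m₀ : ℕ, 4 ≤ m₀ ∧ ∀ m B H : Fin k → ℕ,
    (∀ i, m₀ ≤ m i ∧ γ * m i ≤ Nat.totient (m i) ∧ B i ≤ m i ∧ (m i : ℝ) ^ (1 - η) ≤ H i ∧ H i ≤ m i) →
    ∀ y x : ℕ, γ * ∏ i, log (m i) ≤ x → (∀ i, ((y + x : ℕ) : ℝ) ≤ (m i : ℝ) ^ η) →
    ∀ T ⊆ Ioc y (y + x), ρ * x ≤ T.card →
    κ * ∏ i, (H i : ℝ) ≤ (good κ m B H T).card := by
  obtain ⟨η, hη, hη1, h⟩ := Pool.Agent.V1137.SI3.linS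
  refine ⟨η, hη, hη1, fun k hk γ ρ hγ hρ => ?_⟩
  obtain ⟨κ, hκ, A₀, hA₀, H1⟩ := h k hk γ ρ hγ hρ
  refine ⟨κ, hκ, A₀, hA₀, fun m B H hm y x hx hyx T hT hTc => ?_⟩
  refine (H1 m B H (fun i => (hm i).1) (fun i => (hm i).2.1) (fun i => (hm i).2.2.1)
    (fun i => (hm i).2.2.2.1) (fun i => (hm i).2.2.2.2) y x hx hyx T hT hTc).trans (Nat.cast_le.2 (card_le_card ?_))
  intro c hc
  have e : count m c T = Pool.Agent.V1137.SI3.cnt m c T := by
    unfold count Pool.Agent.V1137.SI3.cnt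
    congr 1
    apply filter_congr
    intro t _
    simp only [add_comm]
  unfold good
  rw [mem_filter] at hc ⊢
  rw [e]
  exact hc

end Pool.Agent.Results.MP_e1dc24_nt.DenseMultipliers
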