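import Pool.Agent.Y879.AP.Phi
import Pool.Agent.V11237.LP.Short

set_option autoImplicit false

/-!
# Almost primes in the residue classes of short intervals, modulo every `q`: the law over the classes

Let `n` run over the integers prime to `q` of ANY interval `(Z, Z + Y]` with `Y ≥ q ^ θ`, which may be much
shorter than `q`. The number of the `1 ≤ h ≤ T` for which `n + q h` has no prime factor `≤ q ^ (1 / r)` has
the Poisson distribution with the mean value `T V`, up to an error `ε`, and `V (φ(q) / q) log q` tends to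
`r e ^ (-γ)`. In particular, the least such number of a class is of the order of magnitude
`φ(q) log q` for almost all classes of every such interval, and with the exponential distribution.
-/

namespace Pool.Agent.Results.MP_e1dc24_nt.LawInShortIntervalsOfClasses

open Finset Filter

/-- `m` has no prime factor `p ≤ q ^ (1 / r)`. -/
def Good (q r m : ℕ) : Prop := ∀ p : ℕ, p.Prime → (p : ℝ) ≤ (q : ℝ) ^ (1 / (r : ℝ)) → ¬ p ∣ m

open Classical in
/-- The number of the `1 ≤ h ≤ T` for which `n + q h` is good. -/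
noncomputable def W (q r T n : ℕ) : ℕ := ((Icc 1 T).filter (fun h => Good q r (n + q * h))).card

open Classical in
/-- The product of `1 - 1 / p` over the primes `p ≤ q ^ (1 / r)` which do not divide `q`. -/
noncomputable def V (q r : ℕ) : ℝ :=
  ∏ p ∈ (Icc 1 ⌊(q : ℝ) ^ (1 / (r : ℝ))⌋₊).filter (fun p => p.Prime ∧ ¬ p ∣ q), (1 - 1 / (p : ℝ))

open Pool.Agent.W123.RP Pool.Agent.H373R2.T7 Pool.Agent.W123.RU Pool.Agent.W123.RU.Poly
open Pool.Agent.TH464.PW Pool.Agent.TH464.PO Pool.Agent.Y879.AP Pool.Agent.Y879.GL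

lemma V_eq (q r : ℕ) : Vq (Qn Ql q) ⌊(q : ℝ) ^ (1 / (r : ℝ))⌋₊ = V q r := by
  classical
  rw [Vn_eq]
  unfold V pz
  rw [Finset.filter_filter]

lemma W_eq (q r T n : ℕ) : Wr q ⌊(q : ℝ) ^ (1 / (r : ℝ))⌋₊ T n = W q r T n := by
  classical
  have h0 : (0 : ℝ) ≤ (q : ℝ) ^ (1 / (r : ℝ)) := by positivity
  unfold Wr W
  apply card_iff
  intro h _
  constructor
  · intro hh p hp hpX
    exact hh p (mem_pz.2 ⟨Nat.le_floor hpX, hp⟩)
  · intro hh p hp
    obtain ⟨h1, h2⟩ := mem_pz.1 hp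
    exact hh p h2 ((Nat.le_floor_iff h0).1 h1)

/-- **The law over the classes of short intervals, for every modulus.** -/
theorem result (θ x₀ ε : ℝ) (hθ : 0 < θ) (hε : 0 < ε) :
    ∃ r₀ : ℕ, 2 ≤ r₀ ∧ ∀ r : ℕ, r₀ ≤ r → ∃ q₀ : ℕ, ∀ q : ℕ, q₀ ≤ q →
      (∀ b m : ℕ, 1 ≤ m → m ≤ q ^ b → Good q r m → m.primeFactorsList.length ≤ b * r) ∧
      |V q r * ((q.totient : ℝ) / q) * Real.log q - r * Real.exp (-Real.eulerMascheroniConstant)| ≤ ε ∧
      ∀ Z Y : ℕ, (q : ℝ) ^ θ ≤ Y →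
      ∀ T : ℕ, T * V q r ≤ x₀ → ∀ S : Finset ℕ,
        |(((Ioc Z (Z + Y)).filter (fun n => n.Coprime q ∧ W q r T n ∈ S)).card : ℝ) -
          Y * ((q.totient : ℝ) / q) *
            ∑ j ∈ S, Real.exp (-(T * V q r)) * (T * V q r) ^ j / j.factorial| ≤
          ε * (Y * ((q.totient : ℝ) / q)) := by
  classical
  obtain ⟨r0, hr0, h0⟩ := phi_law θ x₀ ε hθ hε
  refine ⟨r0, hr0, ?_⟩
  intro r hr
  obtain ⟨q0, hq0⟩ := eventually_atTop.1 ((h0 r hr).and (mean_asym r (by omega) ε hε))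
  refine ⟨max q0 2, ?_⟩
  intro q hq
  obtain ⟨h1, h2⟩ := hq0 q ((le_max_left _ _).trans hq)
  have hq2 : 2 ≤ q := (le_max_right _ _).trans hq
  rw [V_eq] at h2
  refine ⟨fun b m hm hmb hg => Pool.Agent.V11237.LP.Short.few (by omega) hq2 (by omega) hmb hg, h2, ?_⟩
  intro Z Y hY T hT S
  have h := h1 Z Y hY T (by rw [V_eq]; exact hT) S
  simp only [W_eq, V_eq] at h
  exact h

end Pool.Agent.Results.MP_e1dc24_nt.LawInShortIntervalsOfClasses
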